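import Pool.Agent.K7.H55.RH.Near

/-!
# Exceptional rational points with a common denominator: the counting
-/

set_option autoImplicit false

namespace Pool.Agent.K7.H55.RH

open Pool.Agent.Results.MP_c2409d_nt.CommensurableArguments

/-- the point `p / q` -/
def pt {n : ℕ} (q : ℕ) (p : Fin n → ℤ) : Fin n → ℚ := fun k => (p k : ℚ) / q

theorem pt_den {n : ℕ} (q : ℕ) (hq : 1 ≤ q) (p : Fin n → ℤ) (k : Fin n) :
    ((pt q p k).den : ℝ) ≤ q := by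
  have h1 : (pt q p k).den ∣ q := by
    unfold pt
    have := Rat.den_dvd (p k) (q : ℤ)
    have h2 : (((p k : ℚ) / (q : ℚ)).den : ℤ) ∣ (q : ℤ) := by
      have e : ((p k : ℚ) / (q : ℚ)) = ((p k : ℚ) / ((q : ℤ) : ℚ)) := by push_cast; rfl
      rw [e, ← Rat.divInt_eq_div]
      exact this
    exact_mod_cast h2
  exact_mod_cast Nat.le_of_dvd hq h1

theorem pt_inj {n : ℕ} (q : ℕ) (hq : 1 ≤ q) : Function.Injective (pt (n := n) q) := by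
  intro p p' h
  funext k
  have h1 := congrFun h k
  unfold pt at h1
  have hq0 : (q : ℚ) ≠ 0 := by
    have : q ≠ 0 := by omega
    exact_mod_cast this
  rw [div_left_inj' hq0] at h1
  exact_mod_cast h1

/-- the count for one denominator -/
theorem count_one (n r : ℕ) (hn : 1 ≤ n) (c : Fin r → ℚ) (hc : ∀ i, c i ≠ 0) (x : Fin r → ℚ)
    (j : Fin r → Fin n) (a b : ℝ)
    (hpole : ∀ i (s : ℝ), a ≤ s → s ≤ b → ∀ k : ℕ, (c i : ℝ) * s + x i ≠ -k)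
    (N B d : ℕ) (hN : 0 < N) (A : ℝ) (hA : 0 ≤ A) (ε : ℝ) (hε : 0 < ε) :
    ∃ C : ℝ, 0 ≤ C ∧ ∀ q : ℕ, 1 ≤ q →
      {p : Fin n → ℤ | (∀ k, a ≤ (pt q p k : ℝ) ∧ (pt q p k : ℝ) ≤ b) ∧
        Exc c x j N B d ((q : ℝ) ^ A) (pt q p)}.Finite ∧
      ({p : Fin n → ℤ | (∀ k, a ≤ (pt q p k : ℝ) ∧ (pt q p k : ℝ) ≤ b) ∧
        Exc c x j N B d ((q : ℝ) ^ A) (pt q p)}.ncard : ℝ) ≤
        C * (q : ℝ) ^ (((n : ℝ) - 1) + ε) := by
  obtain ⟨C, T₀, H⟩ := Pool.Agent.Results.MP_c2409d_nt.CommensurableArguments.result n r c hc x j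
    a b hpole N B d hN A ε hε
  set M : ℝ := |a| + |b| with hM
  have hM0 : 0 ≤ M := by positivity
  set T₁ : ℝ := max T₀ 1 with hT₁
  have hT₁1 : 1 ≤ T₁ := le_max_right _ _
  have hn' : (0 : ℝ) ≤ (n : ℝ) - 1 := by
    have : (1 : ℝ) ≤ n := by exact_mod_cast hn
    linarith
  refine ⟨|C| * (2 * M + 1) ^ (n - 1) * T₁ ^ ε, by positivity, fun q hq => ?_⟩
  have hq1 : (1 : ℝ) ≤ q := by exact_mod_cast hq
  have hqp : (0 : ℝ) < q := by linarith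
  set T' : ℝ := T₁ * q with hT'
  have hqT : (q : ℝ) ≤ T' := by
    rw [hT']
    nlinarith
  have hT₀' : T₀ ≤ T' := by
    have h1 : T₀ ≤ T₁ := le_max_left _ _
    have h2 : T₁ ≤ T' := by
      rw [hT']
      nlinarith
    exact h1.trans h2
  -- the rational numbers `m / q` in `[a, b]`
  set Z : Finset ℤ := Finset.Icc (-⌊M * q⌋) ⌊M * q⌋ with hZ
  set X : Finset ℚ := (Z.image fun m : ℤ => (m : ℚ) / q).filter
    fun y => a ≤ (y : ℝ) ∧ (y : ℝ) ≤ b with hX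
  have hZc : (Z.card : ℝ) ≤ (2 * M + 1) * q := by
    have hMq : 0 ≤ ⌊M * q⌋ := Int.floor_nonneg.2 (by positivity)
    have e : ((Z.card : ℤ)) = 2 * ⌊M * q⌋ + 1 := by
      rw [hZ, Int.card_Icc, Int.toNat_of_nonneg (by omega)]
      ring
    have e' : (Z.card : ℝ) = 2 * (⌊M * q⌋ : ℝ) + 1 := by exact_mod_cast e
    rw [e']
    have h3 : ((⌊M * q⌋ : ℤ) : ℝ) ≤ M * q := Int.floor_le _
    nlinarith
  have hXc : (X.card : ℝ) ≤ (2 * M + 1) * q := by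
    have h1 : X.card ≤ Z.card := (Finset.card_filter_le _ _).trans Finset.card_image_le
    have h2 : (X.card : ℝ) ≤ (Z.card : ℝ) := by exact_mod_cast h1
    exact h2.trans hZc
  obtain ⟨hf, hc'⟩ := H T' hT₀' X (by
    intro y hy
    rw [hX, Finset.mem_filter, Finset.mem_image] at hy
    obtain ⟨⟨m, -, rfl⟩, h1, h2⟩ := hy
    refine ⟨h1, h2, ?_⟩
    have := pt_den (n := 1) q hq (fun _ => m) 0
    unfold pt at this
    exact this.trans hqT)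
  set S : Set (Fin n → ℤ) := {p : Fin n → ℤ | (∀ k, a ≤ (pt q p k : ℝ) ∧ (pt q p k : ℝ) ≤ b) ∧
        Exc c x j N B d ((q : ℝ) ^ A) (pt q p)} with hS
  have hsub : ∀ p ∈ S, pt q p ∈ Exceptional c x j N B d (T' ^ A) X := by
    rintro p ⟨h1, h2⟩
    have h4 : (q : ℝ) ^ A ≤ T' ^ A := Real.rpow_le_rpow hqp.le hqT hA
    obtain ⟨h5, α, h6, h7⟩ := Exc.mono h4 h2
    refine ⟨fun k => ?_, h5, α, h6, h7⟩
    rw [hX, Finset.mem_filter, Finset.mem_image]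
    refine ⟨⟨p k, ?_, rfl⟩, h1 k⟩
    have h8 : (pt q p k : ℝ) * q = p k := by
      unfold pt
      push_cast
      field_simp
    have h9 : |(pt q p k : ℝ)| ≤ M := by
      rw [abs_le, hM]
      have := neg_abs_le a
      have := le_abs_self b
      have := abs_nonneg a
      have := abs_nonneg b
      constructor <;> linarith [(h1 k).1, (h1 k).2]
    have h10 : |((p k : ℤ) : ℝ)| ≤ M * q := by
      rw [← h8, abs_mul, abs_of_pos hqp]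
      exact mul_le_mul_of_nonneg_right h9 hqp.le
    rw [abs_le] at h10
    rw [hZ, Finset.mem_Icc]
    refine ⟨?_, Int.le_floor.2 h10.2⟩
    have : -(p k) ≤ ⌊M * q⌋ := Int.le_floor.2 (by push_cast; linarith [h10.1])
    omega
  have hinj : Set.InjOn (pt (n := n) q) S := (pt_inj q hq).injOn
  have himg : pt q '' S ⊆ Exceptional c x j N B d (T' ^ A) X := by
    rintro _ ⟨p, hp, rfl⟩
    exact hsub p hp
  have hSf : S.Finite := Set.Finite.of_finite_image (hf.subset himg) hinj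
  refine ⟨hSf, ?_⟩
  have h1 : (S.ncard : ℝ) ≤ ((Exceptional c x j N B d (T' ^ A) X).ncard : ℝ) := by
    rw [← hinj.ncard_image]
    exact_mod_cast Set.ncard_le_ncard himg hf
  calc (S.ncard : ℝ) ≤ C * T' ^ ε * (X.card : ℝ) ^ (n - 1) := h1.trans hc'
    _ ≤ |C| * T' ^ ε * (X.card : ℝ) ^ (n - 1) := by
        have h5 : 0 ≤ T' ^ ε := by positivity
        have h6 : (0 : ℝ) ≤ (X.card : ℝ) ^ (n - 1) := by positivity
        have := le_abs_self C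
        gcongr
    _ ≤ |C| * T' ^ ε * ((2 * M + 1) * q) ^ (n - 1) := by
        have h5 : 0 ≤ T' ^ ε := by positivity
        gcongr
    _ = |C| * (2 * M + 1) ^ (n - 1) * T₁ ^ ε * ((q : ℝ) ^ ((n : ℝ) - 1) * (q : ℝ) ^ ε) := by
        have e : (q : ℝ) ^ ((n : ℝ) - 1) = (q : ℝ) ^ (n - 1) := by
          rw [← Real.rpow_natCast, Nat.cast_sub hn, Nat.cast_one]
        rw [e, mul_pow, hT', Real.mul_rpow (by linarith) hqp.le]
        ring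
    _ = |C| * (2 * M + 1) ^ (n - 1) * T₁ ^ ε * (q : ℝ) ^ (((n : ℝ) - 1) + ε) := by
        rw [← Real.rpow_add hqp]

/-- the count for all denominators of a set -/
theorem count_all (n r : ℕ) (hn : 1 ≤ n) (c : Fin r → ℚ) (hc : ∀ i, c i ≠ 0) (x : Fin r → ℚ)
    (j : Fin r → Fin n) (a b : ℝ)
    (hpole : ∀ i (s : ℝ), a ≤ s → s ≤ b → ∀ k : ℕ, (c i : ℝ) * s + x i ≠ -k)
    (N B d : ℕ) (hN : 0 < N) (A : ℝ) (hA : 0 ≤ A) (Q : Set ℕ) (ρ : ℝ) (hρ : 0 ≤ ρ)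
    (hQ : ∀ ε : ℝ, 0 < ε → ∃ C : ℝ, ∀ T : ℝ, 1 ≤ T →
      ({q : ℕ | q ∈ Q ∧ (q : ℝ) ≤ T}.ncard : ℝ) ≤ C * T ^ (ρ + ε)) (ε : ℝ) (hε : 0 < ε) :
    ∃ C : ℝ, ∀ T : ℝ, 1 ≤ T →
      {t : ℕ × (Fin n → ℤ) | ((1 ≤ t.1 ∧ t.1 ∈ Q) ∧
        (∀ k, a ≤ (pt t.1 t.2 k : ℝ) ∧ (pt t.1 t.2 k : ℝ) ≤ b) ∧
        Exc c x j N B d ((t.1 : ℝ) ^ A) (pt t.1 t.2)) ∧ ((max 1 t.1 : ℕ) : ℝ) ≤ T}.Finite ∧
      (({t : ℕ × (Fin n → ℤ) | ((1 ≤ t.1 ∧ t.1 ∈ Q) ∧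
        (∀ k, a ≤ (pt t.1 t.2 k : ℝ) ∧ (pt t.1 t.2 k : ℝ) ≤ b) ∧
        Exc c x j N B d ((t.1 : ℝ) ^ A) (pt t.1 t.2)) ∧ ((max 1 t.1 : ℕ) : ℝ) ≤ T}.ncard : ℕ) : ℝ) ≤
        C * T ^ ((((n : ℝ) - 1) + ρ) + ε) := by
  classical
  obtain ⟨C, hC, H⟩ := count_one n r hn c hc x j a b hpole N B d hN A hA (ε / 2) (by positivity)
  obtain ⟨C', H'⟩ := hQ (ε / 2) (by positivity)
  refine ⟨C * |C'|, fun T hT => ?_⟩
  have hT0 : (0 : ℝ) < T := by linarith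
  have hn' : (0 : ℝ) ≤ (n : ℝ) - 1 := by
    have : (1 : ℝ) ≤ n := by exact_mod_cast hn
    linarith
  set S : ℕ → Set (Fin n → ℤ) := fun q => {p : Fin n → ℤ |
    (∀ k, a ≤ (pt q p k : ℝ) ∧ (pt q p k : ℝ) ≤ b) ∧
        Exc c x j N B d ((q : ℝ) ^ A) (pt q p)} with hS
  have hQf : {q : ℕ | q ∈ Q ∧ (q : ℝ) ≤ T}.Finite := by
    refine (Finset.finite_toSet (Finset.range (⌊T⌋₊ + 1))).subset ?_
    rintro q ⟨-, h⟩
    rw [Finset.mem_coe, Finset.mem_range]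
    exact Nat.lt_succ_of_le (Nat.le_floor h)
  set F : Finset ℕ := hQf.toFinset.filter fun q => 1 ≤ q with hF
  have hFm : ∀ q, q ∈ F ↔ (q ∈ Q ∧ (q : ℝ) ≤ T) ∧ 1 ≤ q := by
    intro q
    rw [hF, Finset.mem_filter, Set.Finite.mem_toFinset]
    rfl
  have hFc : (F.card : ℝ) ≤ |C'| * T ^ (ρ + ε / 2) := by
    have h1 : F.card ≤ hQf.toFinset.card := Finset.card_filter_le _ _
    rw [← Set.ncard_eq_toFinset_card _ hQf] at h1
    have h2 : (F.card : ℝ) ≤ ({q : ℕ | q ∈ Q ∧ (q : ℝ) ≤ T}.ncard : ℝ) := by exact_mod_cast h1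
    exact h2.trans ((H' T hT).trans (mul_le_mul_of_nonneg_right (le_abs_self _) (by positivity)))
  set U : Finset (ℕ × (Fin n → ℤ)) := F.biUnion fun q =>
    if h : 1 ≤ q then (H q h).1.toFinset.image fun p => (q, p) else ∅ with hU
  have hsub : {t : ℕ × (Fin n → ℤ) | ((1 ≤ t.1 ∧ t.1 ∈ Q) ∧
        (∀ k, a ≤ (pt t.1 t.2 k : ℝ) ∧ (pt t.1 t.2 k : ℝ) ≤ b) ∧
        Exc c x j N B d ((t.1 : ℝ) ^ A) (pt t.1 t.2)) ∧ ((max 1 t.1 : ℕ) : ℝ) ≤ T} ⊆ (U : Set _) := by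
    rintro ⟨q, p⟩ ⟨⟨⟨h1, h2⟩, h3⟩, h4⟩
    simp only at h1 h2 h3 h4
    have h5 : (q : ℝ) ≤ T := by
      refine le_trans ?_ h4
      exact_mod_cast le_max_right 1 q
    rw [Finset.mem_coe, hU, Finset.mem_biUnion]
    refine ⟨q, (hFm q).2 ⟨⟨h2, h5⟩, h1⟩, ?_⟩
    rw [dif_pos h1, Finset.mem_image]
    exact ⟨p, by rw [Set.Finite.mem_toFinset]; exact h3, rfl⟩
  refine ⟨(Finset.finite_toSet U).subset hsub, ?_⟩
  have h1 : (({t : ℕ × (Fin n → ℤ) | ((1 ≤ t.1 ∧ t.1 ∈ Q) ∧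
        (∀ k, a ≤ (pt t.1 t.2 k : ℝ) ∧ (pt t.1 t.2 k : ℝ) ≤ b) ∧
        Exc c x j N B d ((t.1 : ℝ) ^ A) (pt t.1 t.2)) ∧ ((max 1 t.1 : ℕ) : ℝ) ≤ T}.ncard : ℕ) : ℝ) ≤
      (U.card : ℝ) := by
    rw [← Set.ncard_coe_finset]
    exact_mod_cast Set.ncard_le_ncard hsub (Finset.finite_toSet U)
  have h2 : (U.card : ℝ) ≤ ∑ q ∈ F, C * T ^ (((n : ℝ) - 1) + ε / 2) := by
    have h3 : (U.card : ℝ) ≤ ∑ q ∈ F, (((if h : 1 ≤ q then
        (H q h).1.toFinset.image fun p => (q, p) else ∅ : Finset (ℕ × (Fin n → ℤ))).card : ℕ) : ℝ) := by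
      exact_mod_cast Finset.card_biUnion_le
    refine h3.trans (Finset.sum_le_sum fun q hq => ?_)
    have hq' := (hFm q).1 hq
    rw [dif_pos hq'.2]
    have h4 := (H q hq'.2).2
    rw [Set.ncard_eq_toFinset_card _ (H q hq'.2).1] at h4
    have h5 : ((((H q hq'.2).1.toFinset.image fun p => (q, p)).card : ℕ) : ℝ) ≤
        (((H q hq'.2).1.toFinset.card : ℕ) : ℝ) := by
      exact_mod_cast Finset.card_image_le
    refine h5.trans (h4.trans ?_)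
    have h6 : (0 : ℝ) ≤ q := Nat.cast_nonneg _
    exact mul_le_mul_of_nonneg_left (Real.rpow_le_rpow h6 hq'.1.2 (by positivity)) hC
  rw [Finset.sum_const, nsmul_eq_mul] at h2
  calc _ ≤ (F.card : ℝ) * (C * T ^ (((n : ℝ) - 1) + ε / 2)) := h1.trans h2
    _ ≤ (|C'| * T ^ (ρ + ε / 2)) * (C * T ^ (((n : ℝ) - 1) + ε / 2)) := by
        have : 0 ≤ C * T ^ (((n : ℝ) - 1) + ε / 2) := by positivity
        exact mul_le_mul_of_nonneg_right hFc this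
    _ = C * |C'| * (T ^ (ρ + ε / 2) * T ^ (((n : ℝ) - 1) + ε / 2)) := by ring
    _ = C * |C'| * T ^ ((((n : ℝ) - 1) + ρ) + ε) := by
        rw [← Real.rpow_add hT0]
        congr 2
        ring

end Pool.Agent.K7.H55.RH
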