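import Pool.Agent.R559.NP.Near
import Pool.Agent.Results.MP_c2409d_nt.CommensurableArguments

/-!
# Exceptional rational points of products of gamma values near a given point: the counting
-/

set_option autoImplicit false

namespace Pool.Agent.K7.H55.RH

open Pool.Agent.Results.MP_c2409d_nt.CommensurableArguments

/-- rational numbers of `[-M, M]` with denominator at most `T` -/
theorem box_finite (M T : ℝ) : {q : ℚ | |(q : ℝ)| ≤ M ∧ (q.den : ℝ) ≤ T}.Finite := by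
  have h : ((Finset.Icc (-⌊M * T⌋) ⌊M * T⌋ ×ˢ Finset.range (⌊T⌋₊ + 1) : Finset (ℤ × ℕ)) :
      Set (ℤ × ℕ)).Finite := Finset.finite_toSet _
  refine Set.Finite.of_finite_image (f := fun q : ℚ => (q.num, q.den)) (h.subset ?_) ?_
  · rintro _ ⟨q, ⟨h1, h2⟩, rfl⟩
    have hd : (0 : ℝ) < q.den := by exact_mod_cast q.den_pos
    have hT : 0 ≤ T := hd.le.trans h2
    have hq : (q : ℝ) * q.den = q.num := by
      have := Rat.mul_den_eq_num q
      exact_mod_cast this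
    have h3 : |(q.num : ℝ)| ≤ M * T := by
      rw [← hq, abs_mul, abs_of_pos hd]
      exact mul_le_mul h1 h2 hd.le ((abs_nonneg _).trans h1)
    rw [abs_le] at h3
    rw [Finset.mem_coe, Finset.mem_product, Finset.mem_Icc, Finset.mem_range]
    refine ⟨⟨?_, ?_⟩, ?_⟩
    · have : -q.num ≤ ⌊M * T⌋ := Int.le_floor.2 (by push_cast; linarith [h3.1])
      simp only
      omega
    · exact Int.le_floor.2 h3.2
    · have : q.den ≤ ⌊T⌋₊ := Nat.le_floor h2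
      simp only
      omega
  · intro p _ q _ h
    simp only [Prod.mk.injEq] at h
    exact Rat.ext h.1 h.2

theorem box_card (M T : ℝ) (hM : 0 ≤ M) (hT : 1 ≤ T) :
    ({q : ℚ | |(q : ℝ)| ≤ M ∧ (q.den : ℝ) ≤ T}.ncard : ℝ) ≤ (2 * M + 1) * T ^ 2 := by
  have h0 : {q : ℚ | |(q : ℝ)| ≤ M ∧ (q.den : ℝ) ≤ T}.ncard ≤
      (Finset.Icc (-⌊M * T⌋) ⌊M * T⌋ ×ˢ Finset.Icc 1 ⌊T⌋₊ : Finset (ℤ × ℕ)).card := by
    rw [← Set.ncard_coe_finset]
    refine Set.ncard_le_ncard_of_injOn (fun q : ℚ => (q.num, q.den)) ?_ ?_ (Finset.finite_toSet _)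
    · rintro q ⟨h1, h2⟩
      have hd : (0 : ℝ) < q.den := by exact_mod_cast q.den_pos
      have hq : (q : ℝ) * q.den = q.num := by
        have := Rat.mul_den_eq_num q
        exact_mod_cast this
      have h3 : |(q.num : ℝ)| ≤ M * T := by
        rw [← hq, abs_mul, abs_of_pos hd]
        exact mul_le_mul h1 h2 hd.le ((abs_nonneg _).trans h1)
      rw [abs_le] at h3
      simp only [Finset.coe_product, Set.mem_prod, Finset.mem_coe, Finset.mem_Icc]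
      refine ⟨⟨?_, ?_⟩, ?_, ?_⟩
      · have : -q.num ≤ ⌊M * T⌋ := Int.le_floor.2 (by push_cast; linarith [h3.1])
        omega
      · exact Int.le_floor.2 h3.2
      · exact q.den_pos
      · exact Nat.le_floor h2
    · intro p _ q _ h
      simp only [Prod.mk.injEq] at h
      exact Rat.ext h.1 h.2
  have hMT : 0 ≤ ⌊M * T⌋ := Int.floor_nonneg.2 (by positivity)
  rw [Finset.card_product, Int.card_Icc, Nat.card_Icc] at h0
  have h1 : ((((⌊M * T⌋ + 1 - -⌊M * T⌋).toNat * (⌊T⌋₊ + 1 - 1) : ℕ)) : ℝ) =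
      (2 * (⌊M * T⌋ : ℝ) + 1) * ⌊T⌋₊ := by
    have e : (((⌊M * T⌋ + 1 - -⌊M * T⌋).toNat : ℤ)) = 2 * ⌊M * T⌋ + 1 := by
      rw [Int.toNat_of_nonneg (by omega)]
      ring
    have e' : ((((⌊M * T⌋ + 1 - -⌊M * T⌋).toNat : ℕ)) : ℝ) = 2 * (⌊M * T⌋ : ℝ) + 1 := by
      exact_mod_cast e
    rw [Nat.cast_mul, e', Nat.add_sub_cancel]
  have h2 : ({q : ℚ | |(q : ℝ)| ≤ M ∧ (q.den : ℝ) ≤ T}.ncard : ℝ) ≤
      (2 * (⌊M * T⌋ : ℝ) + 1) * ⌊T⌋₊ := by
    rw [← h1]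
    exact_mod_cast h0
  refine h2.trans ?_
  have h3 : ((⌊M * T⌋ : ℤ) : ℝ) ≤ M * T := Int.floor_le _
  have h4 : ((⌊T⌋₊ : ℕ) : ℝ) ≤ T := Nat.floor_le (by linarith)
  have h5 : (0 : ℝ) ≤ (⌊T⌋₊ : ℕ) := Nat.cast_nonneg _
  calc (2 * (⌊M * T⌋ : ℝ) + 1) * ⌊T⌋₊ ≤ (2 * (M * T) + 1) * T := by
        refine mul_le_mul (by linarith) h4 h5 (by positivity)
    _ ≤ (2 * M + 1) * T ^ 2 := by nlinarith

/-- the height of a tuple of rational numbers: the largest denominator -/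
def height {n : ℕ} (t : Fin n → ℚ) : ℕ := max 1 (Finset.univ.sup fun k => (t k).den)

theorem one_le_height {n : ℕ} (t : Fin n → ℚ) : (1 : ℝ) ≤ (height t : ℝ) := by
  have : 1 ≤ height t := le_max_left _ _
  exact_mod_cast this

theorem den_le_height {n : ℕ} (t : Fin n → ℚ) (k : Fin n) : ((t k).den : ℝ) ≤ (height t : ℝ) := by
  have : (t k).den ≤ height t := (Finset.le_sup (f := fun k => (t k).den) (Finset.mem_univ k)).trans
    (le_max_right _ _)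
  exact_mod_cast this

/-- The tuple `t` is exceptional: the identity fails and the product of the gamma values is the
product of `π ^ (r / 2)` and of a simple number, with coefficients of absolute value at most `R`. -/
def Exc {n r : ℕ} (c x : Fin r → ℚ) (j : Fin r → Fin n) (N B d : ℕ) (R : ℝ) (t : Fin n → ℚ) : Prop :=
  ¬ Identity (args c x j t) ∧
    ∃ α : ℂ, ((∏ i, Real.Gamma (args c x j t i) : ℝ) : ℂ) = α * ((Real.pi ^ ((r : ℝ) / 2) : ℝ) : ℂ) ∧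
      Simple N B d R t α

theorem Simple.mono {n : ℕ} {N B d : ℕ} {R R' : ℝ} (h : R ≤ R') {t : Fin n → ℚ} {α : ℂ}
    (hs : Simple N B d R t α) : Simple N B d R' t α := by
  obtain ⟨P, h1, h2, h3, h4⟩ := hs
  exact ⟨P, h1, h2, fun s => (h3 s).trans h, h4⟩

theorem Exc.mono {n r : ℕ} {c x : Fin r → ℚ} {j : Fin r → Fin n} {N B d : ℕ} {R R' : ℝ}
    (h : R ≤ R') {t : Fin n → ℚ} (hs : Exc c x j N B d R t) : Exc c x j N B d R' t := by
  obtain ⟨h1, α, h2, h3⟩ := hs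
  exact ⟨h1, α, h2, Simple.mono h h3⟩

/-- the count of the exceptional tuples of height at most `B'` in `[a, b] ^ n` -/
theorem count (n r : ℕ) (hn : 1 ≤ n) (c : Fin r → ℚ) (hc : ∀ i, c i ≠ 0) (x : Fin r → ℚ)
    (j : Fin r → Fin n) (a b : ℝ)
    (hpole : ∀ i (s : ℝ), a ≤ s → s ≤ b → ∀ k : ℕ, (c i : ℝ) * s + x i ≠ -k)
    (N B d : ℕ) (hN : 0 < N) (A : ℝ) (hA : 0 ≤ A) (ε : ℝ) (hε : 0 < ε) :
    ∃ C : ℝ, ∀ T : ℝ, 1 ≤ T →
      {t : Fin n → ℚ | ((∀ k, a ≤ (t k : ℝ) ∧ (t k : ℝ) ≤ b) ∧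
        Exc c x j N B d ((height t : ℝ) ^ A) t) ∧ (height t : ℝ) ≤ T}.Finite ∧
      ({t : Fin n → ℚ | ((∀ k, a ≤ (t k : ℝ) ∧ (t k : ℝ) ≤ b) ∧
        Exc c x j N B d ((height t : ℝ) ^ A) t) ∧ (height t : ℝ) ≤ T}.ncard : ℝ) ≤
        C * T ^ ((2 * ((n : ℝ) - 1)) + ε) := by
  obtain ⟨C, T₀, H⟩ := Pool.Agent.Results.MP_c2409d_nt.CommensurableArguments.result n r c hc x j
    a b hpole N B d hN A ε hε
  set M : ℝ := |a| + |b| with hM
  have hM0 : 0 ≤ M := by positivity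
  set T₁ : ℝ := max T₀ 1 with hT₁
  have hT₁1 : 1 ≤ T₁ := le_max_right _ _
  have hn' : (0 : ℝ) ≤ (n : ℝ) - 1 := by
    have : (1 : ℝ) ≤ n := by exact_mod_cast hn
    linarith
  refine ⟨|C| * (2 * M + 1) ^ (n - 1) * T₁ ^ (2 * ((n : ℝ) - 1) + ε), fun T hT => ?_⟩
  set S : Set (Fin n → ℚ) := {t : Fin n → ℚ | ((∀ k, a ≤ (t k : ℝ) ∧ (t k : ℝ) ≤ b) ∧
        Exc c x j N B d ((height t : ℝ) ^ A) t) ∧ (height t : ℝ) ≤ T} with hS
  set T' : ℝ := T₁ * T with hT'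
  have hT0 : (0 : ℝ) < T := by linarith
  have hTT' : T ≤ T' := by
    rw [hT']
    nlinarith
  have hT'1 : 1 ≤ T' := hT.trans hTT'
  have hT₀' : T₀ ≤ T' := by
    have h1 : T₀ ≤ T₁ := le_max_left _ _
    have h2 : T₁ ≤ T' := by
      rw [hT']
      nlinarith
    exact h1.trans h2
  have hbox := box_finite M T'
  set X : Finset ℚ := (hbox.toFinset).filter fun q => a ≤ (q : ℝ) ∧ (q : ℝ) ≤ b with hX
  have hXc : (X.card : ℝ) ≤ (2 * M + 1) * T' ^ 2 := by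
    have h1 : X.card ≤ hbox.toFinset.card := Finset.card_filter_le _ _
    rw [← Set.ncard_eq_toFinset_card _ hbox] at h1
    have h2 := box_card M T' hM0 hT'1
    have h3 : (X.card : ℝ) ≤ ({q : ℚ | |(q : ℝ)| ≤ M ∧ (q.den : ℝ) ≤ T'}.ncard : ℝ) := by
      exact_mod_cast h1
    exact h3.trans h2
  obtain ⟨hf, hc'⟩ := H T' hT₀' X (by
    intro q hq
    rw [hX, Finset.mem_filter, Set.Finite.mem_toFinset] at hq
    exact ⟨hq.2.1, hq.2.2, hq.1.2⟩)
  have hsub : S ⊆ Exceptional c x j N B d (T' ^ A) X := by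
    rintro t ⟨⟨h1, h2⟩, h3⟩
    have h4 : (height t : ℝ) ^ A ≤ T' ^ A :=
      Real.rpow_le_rpow (by linarith [one_le_height t]) (h3.trans hTT') hA
    obtain ⟨h5, α, h6, h7⟩ := Exc.mono h4 h2
    refine ⟨fun k => ?_, h5, α, h6, h7⟩
    rw [hX, Finset.mem_filter, Set.Finite.mem_toFinset]
    refine ⟨⟨?_, ?_⟩, h1 k⟩
    · rw [abs_le, hM]
      have := neg_abs_le a
      have := le_abs_self b
      have := abs_nonneg a
      have := abs_nonneg b
      constructor <;> linarith [(h1 k).1, (h1 k).2]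
    · exact (den_le_height t k).trans (h3.trans hTT')
  refine ⟨hf.subset hsub, ?_⟩
  have h1 : (S.ncard : ℝ) ≤ ((Exceptional c x j N B d (T' ^ A) X).ncard : ℝ) := by
    exact_mod_cast Set.ncard_le_ncard hsub hf
  have hT'p : 0 < T' := by linarith
  have h2 : (T' ^ 2 : ℝ) ^ (n - 1) = T' ^ (2 * ((n : ℝ) - 1)) := by
    rw [← pow_mul, ← Real.rpow_natCast]
    congr 1
    rw [Nat.cast_mul, Nat.cast_sub hn]
    push_cast
    ring
  have h3 : T' ^ (2 * ((n : ℝ) - 1) + ε) =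
      T₁ ^ (2 * ((n : ℝ) - 1) + ε) * T ^ (2 * ((n : ℝ) - 1) + ε) := by
    rw [hT', Real.mul_rpow (by linarith) (by linarith)]
  calc (S.ncard : ℝ) ≤ C * T' ^ ε * (X.card : ℝ) ^ (n - 1) := h1.trans hc'
    _ ≤ |C| * T' ^ ε * (X.card : ℝ) ^ (n - 1) := by
        have h5 : 0 ≤ T' ^ ε := by positivity
        have h6 : (0 : ℝ) ≤ (X.card : ℝ) ^ (n - 1) := by positivity
        have := le_abs_self C
        gcongr
    _ ≤ |C| * T' ^ ε * ((2 * M + 1) * T' ^ 2) ^ (n - 1) := by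
        have h5 : 0 ≤ T' ^ ε := by positivity
        gcongr
    _ = |C| * (2 * M + 1) ^ (n - 1) * (T' ^ (2 * ((n : ℝ) - 1)) * T' ^ ε) := by
        rw [mul_pow, h2]
        ring
    _ = |C| * (2 * M + 1) ^ (n - 1) * T' ^ (2 * ((n : ℝ) - 1) + ε) := by
        rw [← Real.rpow_add hT'p]
    _ = |C| * (2 * M + 1) ^ (n - 1) * T₁ ^ (2 * ((n : ℝ) - 1) + ε) *
          T ^ (2 * ((n : ℝ) - 1) + ε) := by
        rw [h3]
        ring

end Pool.Agent.K7.H55.RH
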